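import Pool.Agent.H96.TN.Main

/-!
# MP_2b9fb5_al : the full transformation semigroup has only `2^{o(n^n)}` subsemigroups

`Function.End (Fin n)` is the monoid of all self-maps of the `n`-element set `Fin n` under
composition (the full transformation semigroup `T_n`, with `n ^ n` elements), and
`numSub n` is the number of its nonempty subsets closed under multiplication.
-/

namespace Pool.Agent.Results.MP_2b9fb5_al.FewSubsemigroups

/-- The number of subsemigroups (nonempty multiplicatively closed subsets) of `T_n`. -/
noncomputable def numSub (n : ℕ) : ℕ :=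
  Nat.card {H : Subsemigroup (Function.End (Fin n)) //
    (H : Set (Function.End (Fin n))).Nonempty}

/-- For every `c > 1`, `s(T_n) < c ^ (n ^ n)` for all sufficiently large `n`. -/
theorem result : ∀ c : ℝ, 1 < c → ∃ n0 : ℕ, ∀ n ≥ n0, (numSub n : ℝ) < c ^ (n ^ n) := by
  intro c hc
  obtain ⟨n0, h0⟩ := H96.TN.count_subsemigroups c hc
  refine ⟨n0, fun n hn => lt_of_le_of_lt ?_ (h0 n hn)⟩
  have : Finite (Function.End (Fin n)) := inferInstanceAs (Finite (Fin n → Fin n))
  have : Finite (Subsemigroup (Function.End (Fin n))) :=
    Finite.of_injective (fun H : Subsemigroup (Function.End (Fin n)) =>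
      (H : Set (Function.End (Fin n)))) SetLike.coe_injective
  exact_mod_cast Nat.card_le_card_of_injective Subtype.val Subtype.val_injective

end Pool.Agent.Results.MP_2b9fb5_al.FewSubsemigroups
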